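import Pool.Agent.ACK.StmtsC

/-!
# ACK, row LOO: no loops
-/

set_option autoImplicit false

namespace Pool.Agent.ACK.H45

open Pool.Agent.ACK Pool.Agent.ACK.C

theorem bk_br (C : ℕ → List ℕ) (t : Tk) : bk C (br t) = (bk C t).reverse := by
  unfold bk br
  cases t.2 <;> simp

theorem loo (hGFW : GfwStmt) (hPRW : PrwStmt) (hNLP : NlpStmt) (hCWG : CwgStmt)
    (hLET : LetStmt) : LooStmt := by
  intro c C b s hS k hk h
  have hlen := hS.kn.len
  obtain ⟨-, -, h3⟩ := hCWG C b hS.cw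
  rw [hS.len, hlen] at h3
  have hc : 1 ≤ c := by omega
  have hn : NeZero (2 * c) := ⟨by omega⟩
  obtain ⟨⟨x, y, X, Y, h4, h5, h6, h7⟩, -⟩ := hLET c C b hc hS.cw hlen k (by rw [hS.len]; exact hk)
  rw [hS.len, h, bk_br, h4, List.reverse_append, List.reverse_singleton, List.singleton_append,
    List.cons.injEq] at h5
  refine hNLP (2 * c) (wd c (BL C b)) (by omega) (hGFW c (BL C b) hc hlen hS.kn.gw)
    (hPRW c (BL C b) hS.kn hc) (gp c C b k) ?_
  rw [h6, h7, h5.1]

end Pool.Agent.ACK.H45
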