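import Pool.Agent.ACK.StmtsB

/-!
# ACK, row TRI: circles with at most three edges
-/

set_option autoImplicit false

namespace Pool.Agent.ACK.H45

open Pool.Agent.ACK Pool.Agent.ACK.B

theorem cl_of_co {n : ℕ} {w : ZMod n → ℕ} {s : ℕ → Bool} {x : ℕ} {p q : ZMod n}
    (h : Co w s x p q) : cl w s p = cl w s q := by
  obtain ⟨i, j, hij, hi, hj, h⟩ := h
  rcases h with ⟨hs, ⟨h1, h2⟩ | ⟨h1, h2⟩⟩ | ⟨hs, h⟩
  · exact Quot.sound ⟨i, j, hij, hi.trans hj.symm, Or.inl ⟨by rw [hi]; exact hs, h1, h2⟩⟩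
  · exact (Quot.sound (r := CR w s)
      ⟨i, j, hij, hi.trans hj.symm, Or.inl ⟨by rw [hi]; exact hs, h2, h1⟩⟩).symm
  · exact Quot.sound ⟨i, j, hij, hi.trans hj.symm, Or.inr ⟨by rw [hi]; exact hs, h⟩⟩

theorem tri : TriStmt := by
  intro n _ w s hG hl hsm p
  choose π h1 h2 h3 using hG
  have hpp : ∀ i, π (π i) = i := by
    intro i
    rcases h3 i (π (π i)) ((h2 (π i)).trans (h2 i)) with h | h
    · exact h
    · exact absurd h (h1 (π i))
  obtain ⟨f, hf⟩ : ∃ f : ZMod n → ZMod n, f = fun p => if s (w p) = true then π p - 1 else π p :=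
    ⟨_, rfl⟩
  obtain ⟨g, hg⟩ : ∃ g : ZMod n → ZMod n,
      g = fun p => if s (w (p + 1)) = true then π (p + 1) else π (p + 1) - 1 := ⟨_, rfl⟩
  have f1 : ∀ p, s (w p) = true → f p = π p - 1 := fun p h => by
    rw [hf]
    exact if_pos h
  have f2 : ∀ p, s (w p) = false → f p = π p := fun p h => by
    rw [hf]
    exact if_neg (by rw [h]; exact Bool.false_ne_true)
  have g1 : ∀ p, s (w (p + 1)) = true → g p = π (p + 1) := fun p h => by
    rw [hg]
    exact if_pos h
  have g2 : ∀ p, s (w (p + 1)) = false → g p = π (p + 1) - 1 := fun p h => by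
    rw [hg]
    exact if_neg (by rw [h]; exact Bool.false_ne_true)
  have cf : ∀ p, Co w s (w p) p (f p) := by
    intro p
    cases hs : s (w p)
    · exact ⟨p, π p, (h1 p).symm, rfl, h2 p, Or.inr ⟨hs, Or.inr ⟨rfl, f2 p hs⟩⟩⟩
    · exact ⟨π p, p, h1 p, h2 p, rfl, Or.inl ⟨hs, Or.inr ⟨rfl, f1 p hs⟩⟩⟩
  have cg : ∀ p, Co w s (w (p + 1)) p (g p) := by
    intro p
    have h0 : p = p + 1 - 1 := by ring
    cases hs : s (w (p + 1))
    · exact ⟨p + 1, π (p + 1), (h1 _).symm, rfl, h2 _, Or.inr ⟨hs, Or.inl ⟨h0, g2 p hs⟩⟩⟩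
    · exact ⟨p + 1, π (p + 1), (h1 _).symm, rfl, h2 _, Or.inl ⟨hs, Or.inl ⟨h0, g1 p hs⟩⟩⟩
  have nf : ∀ p, f p ≠ p := by
    intro p h
    cases hs : s (w p)
    · rw [f2 p hs] at h
      exact h1 p h
    · rw [f1 p hs] at h
      have h4 : π p = p + 1 := sub_eq_iff_eq_add.1 h
      exact hl p (by rw [← h4, h2 p])
  have ng : ∀ p, g p ≠ p := by
    intro p h
    cases hs : s (w (p + 1))
    · rw [g2 p hs] at h
      exact h1 (p + 1) (sub_eq_iff_eq_add.1 h)
    · rw [g1 p hs] at h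
      have h4 := h2 (p + 1)
      rw [h] at h4
      exact hl p h4
  by_cases hqr : f p = g p
  · exact ⟨f p, g p, 0, nf p, ng p, cf p, cg p, Or.inl hqr⟩
  -- the common end of the argument
  have key : ∀ (z : ℕ) (t : ZMod n), Co w s z (f p) t → t ≠ f p → t ≠ p → Co w s z (f p) (g p) := by
    intro z t hc ht1 ht2
    have ht : t = g p := by
      by_contra ht
      refine hsm p (f p) (g p) t ?_ ⟨cl_of_co (cf p), cl_of_co (cg p),
        (cl_of_co (cf p)).trans (cl_of_co hc)⟩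
      simp only [List.nodup_cons, List.mem_cons, List.not_mem_nil, or_false, not_or,
        List.nodup_nil, and_true, not_false_eq_true]
      exact ⟨⟨(nf p).symm, (ng p).symm, ht2.symm⟩, ⟨hqr, ht1.symm⟩, fun h => ht h.symm⟩
    rw [← ht]
    exact hc
  cases hs : s (w p)
  · -- `s (w p) = false`: `q = π p`, `t = g q`
    have hq := f2 p hs
    refine ⟨f p, g p, w (f p + 1), nf p, ng p, cf p, cg p, Or.inr ⟨hqr, ?_⟩⟩
    refine key _ (g (f p)) (cg (f p)) (ng (f p)) fun h => ?_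
    cases hs2 : s (w (f p + 1))
    · rw [g2 _ hs2, sub_eq_iff_eq_add] at h
      have h5 : f p + 1 = π (p + 1) := by rw [← h, hpp]
      have h6 : w (f p + 1) = w (p + 1) := by rw [h5, h2]
      rw [h6] at hs2
      apply hqr
      rw [g2 p hs2, ← h5]
      ring
    · rw [g1 _ hs2] at h
      have h5 := h2 (f p + 1)
      rw [h] at h5
      rw [← h5, hs] at hs2
      exact Bool.false_ne_true hs2
  · -- `s (w p) = true`: `q = π p - 1`, `t = f q`
    have hq := f1 p hs
    refine ⟨f p, g p, w (f p), nf p, ng p, cf p, cg p, Or.inr ⟨hqr, ?_⟩⟩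
    refine key _ (f (f p)) (cf (f p)) (nf (f p)) fun h => ?_
    cases hs2 : s (w (f p))
    · rw [f2 _ hs2] at h
      have h5 := h2 (f p)
      rw [h] at h5
      rw [← h5, hs] at hs2
      exact Bool.false_ne_true hs2.symm
    · rw [f1 _ hs2, sub_eq_iff_eq_add] at h
      have h5 : f p = π (p + 1) := by rw [← h, hpp]
      have h6 : w (f p) = w (p + 1) := by rw [h5, h2]
      rw [h6] at hs2
      apply hqr
      rw [g1 p hs2, ← h5]

end Pool.Agent.ACK.H45
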