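import Pool.Agent.ACK.StmtsD

/-!
# ACK, row WCH: the labels of the edges fit together
-/

set_option autoImplicit false

namespace Pool.Agent.ACK.H45

open Pool.Agent.ACK Pool.Agent.ACK.D

/-- the relation of neighbours -/
abbrev Rr (P : Pat) (a : Fin 6 → ℕ) (p q : ℕ × Bool) : Prop := out P a p = inn P a q

/-- the block `p` -/
def blo (P : Pat) (a : Fin 6 → ℕ) (p : Fin 12) : List (ℕ × Bool) :=
  run (P.ch p) (P.st p) (P.st p && !(P.pr (P.ch p))) (a (P.ch p))

theorem cx_eq (s : ℕ) (i : Fin 6) : cx (6 * s + i.1) = i := by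
  apply Fin.ext
  show (6 * s + i.1) % 6 = i.1
  have := i.2
  omega

theorem div_eq (s : ℕ) (i : Fin 6) : (6 * s + i.1) / 6 = s := by
  have := i.2
  omega

theorem run_length (i : Fin 6) (t d : Bool) (n : ℕ) : (run i t d n).length = n := by
  unfold run
  split_ifs <;> simp

theorem run_ne {i : Fin 6} {t d : Bool} {n : ℕ} (hn : 0 < n) : run i t d n ≠ [] := by
  intro h
  have h1 := run_length i t d n
  rw [h, List.length_nil] at h1
  omega

theorem head_run {i : Fin 6} {t d : Bool} {n : ℕ} (hn : 0 < n) :
    (run i t d n).head? = some (6 * (if d then n - 1 else 0) + i.1, t) := by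
  obtain ⟨m, rfl⟩ : ∃ m, n = m + 1 := ⟨n - 1, by omega⟩
  unfold run
  cases d
  · simp [List.range_succ_eq_map]
  · simp [List.range_succ]

theorem last_run {i : Fin 6} {t d : Bool} {n : ℕ} (hn : 0 < n) :
    (run i t d n).getLast? = some (6 * (if d then 0 else n - 1) + i.1, t) := by
  obtain ⟨m, rfl⟩ : ∃ m, n = m + 1 := ⟨n - 1, by omega⟩
  unfold run
  cases d
  · simp [List.range_succ]
  · simp [List.range_succ_eq_map]

/-- white face and triangle at the start of a block -/
def sI (P : Pat) (i : Fin 6) (t : Bool) : Fin 4 × Fin 4 :=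
  if t = false then (P.f i, P.A i)
  else if P.pr i = true then (P.k i, P.A i)
  else (if i.1 < 3 then P.k i else P.f i, P.Z i)

/-- white face and triangle at the end of a block -/
def eO (P : Pat) (i : Fin 6) (t : Bool) : Fin 4 × Fin 4 :=
  if t = false then (if i.1 < 3 then P.f i else P.k i, P.Z i)
  else if P.pr i = true then (if i.1 < 3 then P.k i else P.f i, P.Z i)
  else (P.k i, P.A i)

theorem ln_pos (b : Fin 6 → ℕ) (i : Fin 6) : 2 ≤ ln b i := by
  unfold ln
  split_ifs <;> omega

theorem ln_par (b : Fin 6 → ℕ) (i : Fin 6) : (ln b i - 1) % 2 = 1 ↔ i.1 < 3 := by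
  unfold ln
  split_ifs with h
  · simp only [h, iff_true]
    omega
  · simp only [h, iff_false]
    omega

theorem inn_start (P : Pat) (b : Fin 6 → ℕ) (i : Fin 6) (t : Bool) :
    inn P (ln b) (6 * (if (t && !(P.pr i)) then ln b i - 1 else 0) + i.1, t) =
      ((sI P i t).1, .inl (sI P i t).2) := by
  have h2 := ln_pos b i
  have hp := ln_par b i
  unfold inn
  rw [cx_eq, div_eq]
  unfold sI wht blk
  cases t
  · simp
  · cases hpr : P.pr i
    · have h3 : ln b i - 1 + 1 = ln b i := by omega
      have h4 : ln b i ≠ 0 := by omega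
      simp [h3, h4, hp]
    · simp

theorem out_end (P : Pat) (b : Fin 6 → ℕ) (i : Fin 6) (t : Bool) :
    out P (ln b) (6 * (if (t && !(P.pr i)) then 0 else ln b i - 1) + i.1, t) =
      ((eO P i t).1, .inl (eO P i t).2) := by
  have h2 := ln_pos b i
  have hp := ln_par b i
  have h3 : ln b i - 1 + 1 = ln b i := by omega
  have h4 : ln b i ≠ 0 := by omega
  unfold out
  rw [cx_eq, div_eq]
  unfold eO wht blk
  cases t
  · by_cases hi : i.1 < 3
    · simp [h3, h4, hp, hi]
    · simp [h3, h4, hp, hi]
  · cases hpr : P.pr i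
    · simp
    · by_cases hi : i.1 < 3
      · simp [h3, h4, hp, hi]
      · simp [h3, h4, hp, hi]

theorem btw {P : Pat} {b : Fin 6 → ℕ} {p p' : Fin 12}
    (h : eO P (P.ch p) (P.st p) = sI P (P.ch p') (P.st p')) :
    ∀ x ∈ (blo P (ln b) p).getLast?, ∀ y ∈ (blo P (ln b) p').head?, Rr P (ln b) x y := by
  intro x hx y hy
  have h2 := ln_pos b (P.ch p)
  have h2' := ln_pos b (P.ch p')
  unfold blo at hx hy
  rw [last_run (by omega), Option.mem_some_iff] at hx
  rw [head_run (by omega), Option.mem_some_iff] at hy
  rw [← hx, ← hy]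
  show out P (ln b) _ = inn P (ln b) _
  rw [inn_start, out_end, h]

theorem wht_par (P : Pat) (i : Fin 6) (s : ℕ) (t : Bool) : wht P i s t = wht P i (s + 1) (!t) := by
  unfold wht
  rcases Nat.mod_two_eq_zero_or_one s with h | h
  · have h' : (s + 1) % 2 = 1 := by omega
    cases t <;> simp [h, h']
  · have h' : (s + 1) % 2 = 0 := by omega
    cases t <;> simp [h, h']

theorem chain_blo (P : Pat) (a : Fin 6 → ℕ) (p : Fin 12) :
    (blo P a p).IsChain (Rr P a) := by
  unfold blo run
  generalize P.ch p = i
  cases ht : P.st p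
  · simp only [Bool.false_and, Bool.false_eq_true, if_false]
    rw [List.isChain_map, List.isChain_range]
    intro m _
    show out P a _ = inn P a _
    unfold out inn
    rw [cx_eq, div_eq, cx_eq, div_eq]
    simp only [if_true]
    rw [wht_par]
    rfl
  · cases hpr : P.pr i
    · simp only [Bool.true_and, Bool.not_false, if_true]
      rw [List.isChain_reverse, List.isChain_map, List.isChain_range]
      intro m _
      show out P a _ = inn P a _
      unfold out inn
      rw [cx_eq, div_eq, cx_eq, div_eq]
      simp only [hpr, Bool.true_eq_false, Bool.false_eq_true, if_false]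
      rw [wht_par P i m false]
      rfl
    · simp only [Bool.true_and, Bool.not_true, Bool.false_eq_true, if_false]
      rw [List.isChain_map, List.isChain_range]
      intro m _
      show out P a _ = inn P a _
      unfold out inn
      rw [cx_eq, div_eq, cx_eq, div_eq]
      simp only [hpr, Bool.true_eq_false, if_false, if_true]
      rw [wht_par P i m false]
      rfl

theorem wch_aux (P : Pat) (hP : ∀ p : Fin 12, eO P (P.ch p) (P.st p) =
    sI P (P.ch (p + 1)) (P.st (p + 1))) (b : Fin 6 → ℕ) :
    (W2 P (ln b) ++ (W2 P (ln b)).take 1).IsChain (Rr P (ln b)) := by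
  have hne : ∀ p, blo P (ln b) p ≠ [] := fun p => run_ne (by have := ln_pos b (P.ch p); omega)
  have hW : W2 P (ln b) = [blo P (ln b) 0, blo P (ln b) 1, blo P (ln b) 2, blo P (ln b) 3,
      blo P (ln b) 4, blo P (ln b) 5, blo P (ln b) 6, blo P (ln b) 7, blo P (ln b) 8,
      blo P (ln b) 9, blo P (ln b) 10, blo P (ln b) 11].flatten := rfl
  have ht : (W2 P (ln b)).take 1 = (blo P (ln b) 0).take 1 := by
    rw [hW, List.flatten_cons]
    apply List.take_append_of_le_length
    exact List.length_pos_iff.2 (hne 0)
  rw [ht]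
  have hW2 : W2 P (ln b) ++ (blo P (ln b) 0).take 1 = [blo P (ln b) 0, blo P (ln b) 1,
      blo P (ln b) 2, blo P (ln b) 3,
      blo P (ln b) 4, blo P (ln b) 5, blo P (ln b) 6, blo P (ln b) 7, blo P (ln b) 8,
      blo P (ln b) 9, blo P (ln b) 10, blo P (ln b) 11, (blo P (ln b) 0).take 1].flatten := by
    rw [hW]
    simp only [List.flatten_cons, List.flatten_nil, List.append_nil, List.append_assoc]
  rw [hW2, List.isChain_flatten]
  · constructor
    · intro l hl
      have h1 : (∃ p, l = blo P (ln b) p) ∨ l = (blo P (ln b) 0).take 1 := by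
        simp only [List.mem_cons, List.not_mem_nil, or_false] at hl
        rcases hl with h | h | h | h | h | h | h | h | h | h | h | h | h
        all_goals first
          | exact Or.inl ⟨_, h⟩
          | exact Or.inr h
      rcases h1 with ⟨p, rfl⟩ | rfl
      · exact chain_blo P (ln b) p
      · exact (chain_blo P (ln b) 0).take 1
    · simp only [List.isChain_cons_cons, List.IsChain.singleton, and_true]
      refine ⟨btw (hP 0), btw (hP 1), btw (hP 2), btw (hP 3), btw (hP 4), btw (hP 5), btw (hP 6),
        btw (hP 7), btw (hP 8), btw (hP 9), btw (hP 10), ?_⟩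
      intro x hx y hy
      refine btw (hP 11) x hx y ?_
      rw [List.head?_take] at hy
      simpa using hy
  · simp only [List.mem_cons, List.not_mem_nil, or_false, not_or]
    refine ⟨(hne 0).symm, (hne 1).symm, (hne 2).symm, (hne 3).symm, (hne 4).symm, (hne 5).symm,
      (hne 6).symm, (hne 7).symm, (hne 8).symm, (hne 9).symm, (hne 10).symm, (hne 11).symm, ?_⟩
    intro h
    have h1 := congrArg List.length h
    rw [List.length_nil, List.length_take] at h1
    have h2 := List.length_pos_iff.2 (hne 0)
    omega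

theorem wch : WchStmt := by
  rintro P (rfl | rfl) b
  · exact wch_aux pat1 (by decide) b
  · exact wch_aux pat2 (by decide) b

end Pool.Agent.ACK.H45
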